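import Pool.Agent.Helper93_FL.CDefs

/-!
# Module C2 READ: reading of names of sets of natural numbers
-/

set_option autoImplicit false

open MeasureTheory Set

namespace Pool.Agent.FL.H3

open Pool.Agent.FL

theorem below_univ {I : Type} [LinearOrder I] (p : Cond I) : p.Below Set.univ :=
  fun i hi => absurd (Set.mem_univ i) hi

theorem depOn_univ {I : Type} (A : Set (Pt I)) : DepOn Set.univ A := by
  intro y y' h
  have : y = y' := funext fun i => h i (Set.mem_univ i)
  rw [this]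

/-- a condition inside a finite union of bodies has a stronger condition below one of them -/
theorem exists_le_of_finite
    (hdec : ∀ (p : Cond Ix) (A : Set (Pt Ix)), MeasurableSet A →
      ∃ q ≤ p, q.body ⊆ A ∨ q.body ⊆ Aᶜ)
    {E : Set (Cond Ix)} (hE : E.Finite) (q : Cond Ix) (hq : q.body ⊆ ⋃ d ∈ E, d.body) :
    ∃ q' ≤ q, ∃ d ∈ E, q' ≤ d := by
  induction E, hE using Set.Finite.induction_on generalizing q with
  | empty =>
    obtain ⟨y, hy⟩ := q.body_nonempty
    have := hq hy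
    simp at this
  | @insert d E _ _ ih =>
    obtain ⟨q1, hq1, h | h⟩ := hdec q d.body d.measurableSet_body
    · exact ⟨q1, hq1, d, Set.mem_insert _ _, h⟩
    · have h2 : q1.body ⊆ ⋃ d' ∈ E, d'.body := by
        intro y hy
        have h3 := hq (hq1 hy)
        rw [Set.biUnion_insert] at h3
        rcases h3 with h3 | h3
        · exact absurd h3 (h hy)
        · exact h3
      obtain ⟨q', hq', d', hd', h4⟩ := ih q1 h2
      exact ⟨q', le_trans hq' hq1, d', Set.mem_insert_of_mem _ hd', h4⟩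

/-- to show `io e ⊓ b ≤ c` find a contradiction below -/
theorem inf_le_of {B : Type} [CompleteBooleanAlgebra B] {io : Cond Ix → B} (hio : IsDenseEmb io)
    {e : Cond Ix} {b c : B} (h : ∀ q ≤ e, io q ≤ b → io q ≤ cᶜ → False) : io e ⊓ b ≤ c := by
  by_contra hcon
  have h1 : (b ⊓ cᶜ) ⊓ io e ≠ ⊥ := by
    intro h2
    apply hcon
    rw [← compl_compl c, le_compl_iff_disjoint_right, disjoint_iff, ← h2]
    ac_rfl
  obtain ⟨q, hq, h2⟩ := hio.dense e _ h1
  exact h q hq (h2.trans inf_le_left) (h2.trans inf_le_right)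

theorem read (h1 : A1Stmt) (h3 : A3Stmt) (hH : HHStmt) (hI : IndStmt) : ReadStmt := by
  intro B _ io hio a p
  obtain ⟨a1, a2, a3, a4, a5, -, a7, -⟩ := h1 B
  obtain ⟨-, -, -, -, b5⟩ := h3 B
  obtain ⟨c1, c2, c3, c4, c5, c6, c7, c8, -, -⟩ := hH B io hio
  obtain ⟨e0, he0, hcase⟩ := c6 p (⨅ x : BSet B, (bmem x a ⇨ bmem x (om B)))
  rcases hcase with hcase | hcase
  swap
  · exact ⟨e0, he0, Or.inr hcase⟩
  let D : ℕ → Set (Cond Ix) := fun n =>
    {d | d ≤ e0 ∧ (io d ≤ bmem (nn B n) a ∨ io d ≤ (bmem (nn B n) a)ᶜ)}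
  have hBR := (hI Ix Set.univ isLowerSet_univ).2.1
  obtain ⟨e, he, -, hE⟩ := hBR e0 (below_univ _) D (fun i d hd => ⟨hd.1, below_univ _⟩)
    (by
      intro i d hd d' hd' _
      refine ⟨le_trans hd' hd.1, ?_⟩
      have h := hio.mono _ _ hd'
      rcases hd.2 with h2 | h2
      · exact Or.inl (h.trans h2)
      · exact Or.inr (h.trans h2))
    (by
      intro i q hq _
      obtain ⟨d, hd, h⟩ := c6 q (bmem (nn B i) a)
      exact ⟨d, ⟨le_trans hd hq, h⟩, hd⟩)
  choose E hEfin hED hEcov using hE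
  let S : Pt Ix → Set ℕ := fun y => {n | ∃ d ∈ E n, io d ≤ bmem (nn B n) a ∧ y ∈ d.body}
  have hSn : ∀ n, {y | n ∈ S y} = ⋃ d ∈ {d ∈ E n | io d ≤ bmem (nn B n) a}, d.body := by
    intro n
    ext y
    simp only [S, Set.mem_ofPred_eq, Set.mem_iUnion, exists_prop]
    constructor
    · rintro ⟨d, hd1, hd2, hd3⟩
      exact ⟨d, ⟨hd1, hd2⟩, hd3⟩
    · rintro ⟨d, ⟨hd1, hd2⟩, hd3⟩
      exact ⟨d, hd1, hd2, hd3⟩
  have hfin : ∀ n, {d ∈ E n | io d ≤ bmem (nn B n) a}.Finite := fun n =>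
    (hEfin n).subset (fun d hd => hd.1)
  have hmeas : ∀ n, MeasurableSet {y | n ∈ S y} := by
    intro n
    rw [hSn n]
    exact (hfin n).measurableSet_biUnion fun d _ => d.measurableSet_body
  have hS : Measurable S := by
    rw [measurable_set_iff]
    intro n
    exact measurable_to_prop (by simpa [Set.preimage] using hmeas n)
  -- the two inclusions
  have k1 : ∀ n, io e ⊓ hh io {y | n ∈ S y} ≤ bmem (nn B n) a := by
    intro n
    refine inf_le_of hio ?_
    intro q hq h2 h3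
    obtain ⟨q', hq', h4⟩ := c7 q _ (hmeas n) h2
    rw [hSn n] at h4
    obtain ⟨q'', hq'', d, hd, h5⟩ := exists_le_of_finite c8 (hfin n) q' h4
    have h6 : io q'' ≤ bmem (nn B n) a := (hio.mono _ _ h5).trans hd.2
    have h7 : io q'' ≤ (bmem (nn B n) a)ᶜ := (hio.mono _ _ (le_trans hq'' hq')).trans h3
    exact hio.ne_bot q'' (le_bot_iff.1 ((le_inf h6 h7).trans (inf_compl_self _).le))
  have k2 : ∀ n, io e ⊓ bmem (nn B n) a ≤ hh io {y | n ∈ S y} := by
    intro n
    refine inf_le_of hio ?_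
    intro q hq h2 h3
    obtain ⟨q', hq', d, hd, h5⟩ := exists_le_of_finite c8 (hEfin n) q (fun y hy => hEcov n (hq hy))
    have h6 := (hED n hd).2
    rcases h6 with h6 | h6
    · have h7 : q'.body ⊆ {y | n ∈ S y} := fun y hy => ⟨d, hd, h6, h5 hy⟩
      have h8 : io q' ≤ hh io {y | n ∈ S y} := c1 q' _ h7
      have h9 : io q' ≤ (hh io {y | n ∈ S y})ᶜ := (hio.mono _ _ hq').trans h3
      exact hio.ne_bot q' (le_bot_iff.1 ((le_inf h8 h9).trans (inf_compl_self _).le))
    · have h7 : io q' ≤ (bmem (nn B n) a)ᶜ := (hio.mono _ _ h5).trans h6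
      have h8 : io q' ≤ bmem (nn B n) a := (hio.mono _ _ hq').trans h2
      exact hio.ne_bot q' (le_bot_iff.1 ((le_inf h8 h7).trans (inf_compl_self _).le))
  refine ⟨e, le_trans he he0, Or.inl ⟨S, hS, ?_⟩⟩
  refine le_trans ?_ (a7 a (codeN io S))
  refine le_iInf fun x => le_inf ?_ ?_
  · rw [le_himp_iff]
    have h4 : io e ⊓ bmem x a ≤ bmem x (om B) := by
      rw [← le_himp_iff]
      exact ((hio.mono _ _ he).trans hcase).trans (iInf_le _ x)
    have h5 : io e ⊓ bmem x a ≤ (io e ⊓ bmem x a) ⊓ bmem x (om B) := le_inf le_rfl h4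
    refine h5.trans ?_
    rw [om, b5, inf_iSup_eq]
    refine iSup_le fun n => ?_
    rw [codeN, b5]
    refine le_trans ?_ (le_iSup _ n)
    refine le_inf ?_ ((inf_le_right).trans inf_le_right)
    refine le_trans ?_ (k2 n)
    refine le_inf (inf_le_left.trans inf_le_left) ?_
    refine le_trans ?_ (a4 x (nn B n) a)
    exact le_inf (inf_le_right.trans inf_le_right) (inf_le_left.trans inf_le_right)
  · rw [le_himp_iff, codeN, b5, inf_iSup_eq]
    refine iSup_le fun n => ?_
    refine le_trans ?_ (a4 (nn B n) x a)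
    refine le_inf ?_ ?_
    · rw [a2]
      exact inf_le_right.trans inf_le_right
    · refine le_trans ?_ (k1 n)
      exact le_inf inf_le_left (inf_le_right.trans inf_le_left)

end Pool.Agent.FL.H3
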