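import Pool.Agent.Helper3_FL.C2

/-!
# Module C4 COVER: covering the translates, or one null set for all
-/

set_option autoImplicit false

open MeasureTheory Set

namespace Pool.Agent.FL.H3

open Pool.Agent.FL

theorem measurable_DrB : Measurable DrB := by
  have h : DrB = fun t : Br => ((∑' m, ((t m).val : NNReal) /
      ∏ i ∈ Finset.range (m + 1), (bs i : NNReal) : NNReal) : ℝ) := by
    funext t
    rw [NNReal.coe_tsum]
    unfold DrB Dr
    congr 1
    funext m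
    push_cast
    rfl
  rw [h]
  refine measurable_coe_nnreal_real.comp ?_
  refine Measurable.nnreal_tsum fun m => ?_
  refine Measurable.div_const ?_ _
  exact (measurable_of_countable (fun k : Fin (sz m) => (k.val : NNReal))).comp
    (measurable_pi_apply m)

/-- selection of one of finitely many sequences of intervals -/
theorem exists_select
    (hdec : ∀ (p : Cond Ix) (A : Set (Pt Ix)), MeasurableSet A →
      ∃ q ≤ p, q.body ⊆ A ∨ q.body ⊆ Aᶜ) (ν : Measure ℝ) (ε : ENNReal)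
    {E : Set (Cond Ix)} (hE : E.Finite) (ecf : Cond Ix → Pt Ix → ℕ → ℚ × ℚ)
    (hec : ∀ d ∈ E, Measurable (ecf d) ∧ ∀ y, sumI ν (ecf d y) ≤ ε) :
    ∃ ec : Pt Ix → ℕ → ℚ × ℚ, Measurable ec ∧ (∀ y, sumI ν (ec y) ≤ ε) ∧
      ∀ q : Cond Ix, q.body ⊆ ⋃ d ∈ E, d.body →
        ∃ q' ≤ q, ∃ d ∈ E, q' ≤ d ∧ ∀ y ∈ q'.body, ec y = ecf d y := by
  classical
  induction E, hE using Set.Finite.induction_on with
  | empty =>
    refine ⟨fun _ _ => (0, 0), measurable_const, ?_, ?_⟩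
    · intro y
      simp [sumI]
    · intro q hq
      obtain ⟨y, hy⟩ := q.body_nonempty
      have := hq hy
      simp at this
  | @insert d E _ _ ih =>
    obtain ⟨ec, h1, h2, h3⟩ := ih fun d' hd' => hec d' (Set.mem_insert_of_mem _ hd')
    obtain ⟨h4, h5⟩ := hec d (Set.mem_insert _ _)
    refine ⟨fun y => if y ∈ d.body then ecf d y else ec y,
      Measurable.ite d.measurableSet_body h4 h1, ?_, ?_⟩
    · intro y
      by_cases hy : y ∈ d.body
      · simp only [hy, if_true]; exact h5 y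
      · simp only [hy, if_false]; exact h2 y
    · intro q hq
      obtain ⟨q1, hq1, h | h⟩ := hdec q d.body d.measurableSet_body
      · exact ⟨q1, hq1, d, Set.mem_insert _ _, h, fun y hy => if_pos (h hy)⟩
      · have h6 : q1.body ⊆ ⋃ d' ∈ E, d'.body := by
          intro y hy
          have h7 := hq (hq1 hy)
          rw [Set.biUnion_insert] at h7
          rcases h7 with h7 | h7
          · exact absurd h7 (h hy)
          · exact h7
        obtain ⟨q', hq', d', hd', h7, h8⟩ := h3 q1 h6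
        refine ⟨q', le_trans hq' hq1, d', Set.mem_insert_of_mem _ hd', h7, fun y hy => ?_⟩
        rw [← h8 y hy]
        exact if_neg (h (hq' hy))

theorem cover (hC : ConstStmt) (hI : IndStmt) (hH : HHStmt) (hD : DecodeStmt) : CoverStmt := by
  intro B _ io hio a α p
  classical
  obtain ⟨-, -, -, -, -, -, -, c8, -, -⟩ := hH B io hio
  obtain ⟨-, -, -, -, -, hU⟩ := hD
  by_cases hcase : ∃ e ≤ p, ∃ (c : ℚ) (k : ℕ), ∀ q ≤ e, ∀ ec : Pt Ix → ℕ → ℚ × ℚ, Measurable ec →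
        (∀ y, sumI muR (ec y) ≤ (1 / 2) ^ k) →
        ∃ q' ≤ q, ∃ f : Pt Ix → ℝ, Measurable f ∧ relA io a q' f ∧
          ∀ y ∈ q'.body, f y + DrB (y α) + c ∉ unI (ec y)
  · obtain ⟨e, he, h⟩ := hcase
    exact ⟨e, he, Or.inl h⟩
  push Not at hcase
  let Good' : ℚ → ℕ → Cond Ix → (Pt Ix → ℕ → ℚ × ℚ) → Prop := fun c k d ec =>
    Measurable ec ∧ (∀ y, sumI muR (ec y) ≤ (1 / 2) ^ k) ∧
      ∀ q' ≤ d, ∀ f : Pt Ix → ℝ, Measurable f → relA io a q' f →
        ∃ y ∈ q'.body, f y + DrB (y α) + c ∈ unI (ec y)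
  let D : ℕ → Set (Cond Ix) := fun n =>
    {d | d ≤ p ∧ ∃ ec, Good' (Denumerable.ofNat (ℚ × ℕ) n).1 (Denumerable.ofNat (ℚ × ℕ) n).2 d ec}
  have hBR := (hI Ix Set.univ isLowerSet_univ).2.1
  obtain ⟨e, he, -, hE⟩ := hBR p (below_univ _) D (fun i d hd => ⟨hd.1, below_univ _⟩)
    (by
      rintro i d ⟨hd, ec, h1, h2, h3⟩ d' hd' _
      exact ⟨le_trans hd' hd, ec, h1, h2, fun q' hq' => h3 q' (le_trans hq' hd')⟩)
    (by
      intro i q hq _
      obtain ⟨d, hd, ec, h1, h2, h3⟩ := hcase q hq (Denumerable.ofNat (ℚ × ℕ) i).1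
        (Denumerable.ofNat (ℚ × ℕ) i).2
      exact ⟨d, ⟨le_trans hd hq, ec, h1, h2, h3⟩, hd⟩)
  -- the selected sequences
  have hsel : ∀ i : ℕ, ∃ ec : Pt Ix → ℕ → ℚ × ℚ, Measurable ec ∧
      (∀ y, sumI muR (ec y) ≤ (1 / 2) ^ (Denumerable.ofNat (ℚ × ℕ) i).2) ∧
      ∀ q ≤ e, ∀ f : Pt Ix → ℝ, Measurable f → relA io a q f →
        ∃ q' ≤ q, ∃ y ∈ q'.body,
          f y + DrB (y α) + (Denumerable.ofNat (ℚ × ℕ) i).1 ∈ unI (ec y) := by
    intro i
    obtain ⟨E, hEfin, hED, hEcov⟩ := hE i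
    have h1 : ∀ d ∈ E, ∃ ec, Good' (Denumerable.ofNat (ℚ × ℕ) i).1
        (Denumerable.ofNat (ℚ × ℕ) i).2 d ec := fun d hd => (hED hd).2
    choose! ecf hecf using h1
    obtain ⟨ec, h2, h3, h4⟩ := exists_select c8 muR
      ((1 / 2) ^ (Denumerable.ofNat (ℚ × ℕ) i).2) hEfin ecf
      (fun d hd => ⟨(hecf d hd).1, (hecf d hd).2.1⟩)
    refine ⟨ec, h2, h3, ?_⟩
    intro q hq f hf hrel
    obtain ⟨q', hq', d, hd, h5, h6⟩ := h4 q (fun y hy => hEcov (hq hy))
    obtain ⟨y, hy, h7⟩ := (hecf d hd).2.2 q' h5 f hf ((hio.mono _ _ hq').trans hrel)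
    refine ⟨q', hq', y, hy, ?_⟩
    rw [h6 y hy]
    exact h7
  choose ec hec1 hec2 hec3 using hsel
  let ix : ℚ → ℕ → ℕ := fun c k =>
    @Encodable.encode (ℚ × ℕ) (Denumerable.toEncodable) (c, k)
  have hix : ∀ c k, Denumerable.ofNat (ℚ × ℕ) (ix c k) = (c, k) := fun c k =>
    Denumerable.ofNat_encode (c, k)
  refine ⟨e, he, Or.inr ⟨{z | ∃ c : ℚ, ∀ k : ℕ, z.2 ∈ unI (ec (ix c k) z.1)}, ?_, ?_, ?_⟩⟩
  · have h1 : {z : Pt Ix × ℝ | ∃ c : ℚ, ∀ k : ℕ, z.2 ∈ unI (ec (ix c k) z.1)} =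
        ⋃ c : ℚ, ⋂ k : ℕ, {z : Pt Ix × ℝ | z.2 ∈ unI (ec (ix c k) z.1)} := by
      ext z
      simp
    rw [h1]
    refine MeasurableSet.iUnion fun c => MeasurableSet.iInter fun k => ?_
    have h2 : Measurable (fun z : Pt Ix × ℝ => (ec (ix c k) z.1, z.2)) :=
      ((hec1 _).comp measurable_fst).prodMk measurable_snd
    exact h2 hU
  · intro y
    have h1 : {x : ℝ | (y, x) ∈ {z : Pt Ix × ℝ | ∃ c : ℚ, ∀ k : ℕ, z.2 ∈ unI (ec (ix c k) z.1)}} =
        ⋃ c : ℚ, ⋂ k : ℕ, unI (ec (ix c k) y) := by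
      ext x
      simp
    rw [h1, measure_iUnion_null_iff]
    intro c
    have h2 : ∀ k : ℕ, muR (⋂ k : ℕ, unI (ec (ix c k) y)) ≤ (1 / 2) ^ k := by
      intro k
      calc muR (⋂ k : ℕ, unI (ec (ix c k) y)) ≤ muR (unI (ec (ix c k) y)) :=
            measure_mono (Set.iInter_subset _ k)
        _ ≤ sumI muR (ec (ix c k) y) := measure_iUnion_le _
        _ ≤ (1 / 2) ^ k := by
            have := hec2 (ix c k) y
            rwa [hix] at this
    refine le_antisymm ?_ zero_le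
    have h3 : Filter.Tendsto (fun k : ℕ => ((1 / 2 : ENNReal)) ^ k) Filter.atTop (nhds 0) := by
      refine ENNReal.tendsto_pow_atTop_nhds_zero_of_lt_one ?_
      rw [one_div]
      exact ENNReal.inv_lt_one.2 (by norm_num)
    exact ge_of_tendsto' h3 h2
  · intro q hq f hf hrel c hcon
    -- one of the sets works on a smaller condition
    let A : ℕ → Set (Pt Ix) := fun k => {y | f y + DrB (y α) + c ∉ unI (ec (ix c k) y)}
    have hA : ∀ k, MeasurableSet (A k) := by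
      intro k
      have h2 : Measurable (fun y : Pt Ix => (ec (ix c k) y, f y + DrB (y α) + (c : ℝ))) :=
        (hec1 _).prodMk ((hf.add (measurable_DrB.comp (measurable_pi_apply α))).add_const _)
      exact h2 hU.compl
    have hcov : q.body ⊆ ⋃ k, A k := by
      intro y hy
      have h1 := hcon y hy
      simp only [Set.mem_ofPred_eq, not_exists, not_forall] at h1
      obtain ⟨k, hk⟩ := h1 c
      exact Set.mem_iUnion.2 ⟨k, hk⟩
    obtain ⟨q1, hq1, -, k, hk⟩ := (hC Ix Set.univ isLowerSet_univ q (below_univ _)).2.1 A hA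
      (fun k => depOn_univ _) hcov
    obtain ⟨q2, hq2, y, hy, h5⟩ := hec3 (ix c k) q1 (le_trans hq1 hq) f hf
      ((hio.mono _ _ hq1).trans hrel)
    rw [hix] at h5
    exact hk (hq2 hy) h5

end Pool.Agent.FL.H3
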